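import Pool.Agent.Helper22.G4.Real
import Pool.Agent.Helper22.G4.St.C0

/-! # G4-R16: bookkeeping for the facets -/

namespace Pool.Agent.Helper10.G4

open Pool.Agent.Helper22.G4 Submodule

theorem g_mod (d : OpD) : (d.g0 % 3 = 0 ∧ d.g0 / 3 = d.n) ∧ (d.g1 % 3 = 1 ∧ d.g1 / 3 = d.n) ∧
    (d.g2 % 3 = 2 ∧ d.g2 / 3 = d.n) := by
  simp only [OpD.g0, OpD.g1, OpD.g2]
  omega

theorem gX_g0 (d : OpD) : gX d.g0 = d.pb := by
  obtain ⟨h, -, -⟩ := g_mod d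
  rw [gX, if_neg (by omega), h.2, OpD.pb]
theorem gY_g0 (d : OpD) : gY d.g0 = d.pa := by
  obtain ⟨h, -, -⟩ := g_mod d
  rw [gY, if_pos h.1, h.2, OpD.pa]
theorem gX_g1 (d : OpD) : gX d.g1 = d.pb := by
  obtain ⟨-, h, -⟩ := g_mod d
  rw [gX, if_neg (by omega), h.2, OpD.pb]
theorem gY_g1 (d : OpD) : gY d.g1 = d.pc := by
  obtain ⟨-, h, -⟩ := g_mod d
  rw [gY, if_neg (by omega), if_pos h.1, h.2, OpD.pc]
theorem gX_g2 (d : OpD) : gX d.g2 = d.pc := by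
  obtain ⟨-, -, h⟩ := g_mod d
  rw [gX, if_pos h.1, h.2, OpD.pc]
theorem gY_g2 (d : OpD) : gY d.g2 = d.pd := by
  obtain ⟨-, -, h⟩ := g_mod d
  rw [gY, if_neg (by omega), if_neg (by omega), h.2, OpD.pd]

theorem fac_mem {I : NF} {d : OpD} (hd : d ∈ I.opds) {f : Fc} (hf : f ∈ OpD.facets I.M I.N d) :
    f ∈ I.data.fcodes :=
  NF.mem_fcodes.2 (Or.inr (Or.inr ⟨d, hd, hf⟩))

theorem n_lt {I : NF} (hI : I.OK) {d : OpD} (hd : d ∈ I.opds) : d.n < I.ops.length := by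
  have h1 := (NF.opd_ok hI hd).1
  have h2 := (NF.size hI).2.1
  omega

/-- G4-R16 (the facets, sorted by gadgets). -/
theorem fcodes_cases {I : NF} (hI : I.OK) {f : Fc} (hf : f ∈ I.data.fcodes) :
    (∃ a b, ((a + 1 ≤ I.M ∧ b = a + 1) ∨ (a = I.M ∧ b = 0)) ∧ f = Fc.Q I.N a b) ∨
      (∃ a s, 1 ≤ a ∧ a + 1 ≤ I.M ∧ s ≤ I.N ∧ f = Fc.F I.N s a) ∨
      ∃ g < 3 * I.ops.length, f = Fc.GX I.N (gX g) g ∨ f = Fc.GY I.N (gY g) g ∨
        f = Fc.T0 I.M I.N g ∨ ∃ s, f = Fc.G I.N (gX g) (gY g) g s := by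
  rcases NF.mem_fcodes.1 hf with h | h | ⟨d, hd, h⟩
  · have := (NF.size hI).1
    exact Or.inl ⟨0, 1, Or.inl ⟨by omega, rfl⟩, h⟩
  · exact Or.inr (Or.inl h)
  · have hn := n_lt hI hd
    have hM := (NF.opd_ok hI hd).1
    have h0 : d.g0 < 3 * I.ops.length := by simp only [OpD.g0]; omega
    have h1 : d.g1 < 3 * I.ops.length := by simp only [OpD.g1]; omega
    have h2 : d.g2 < 3 * I.ops.length := by simp only [OpD.g2]; omega
    simp only [OpD.facets, List.mem_cons, List.not_mem_nil, or_false] at h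
    rcases h with h | h | h | h | h | h | h | h | h | h | h | h | h | h | h | h | h | h | h | h |
      h | h | h | h | h | h | h
    · refine Or.inl ⟨d.pd, d.nxt I.M, ?_, h⟩
      simp only [OpD.pd, OpD.nxt]
      split_ifs with h3
      · exact Or.inr ⟨h3, rfl⟩
      · exact Or.inl ⟨by omega, by omega⟩
    · exact Or.inr (Or.inr ⟨d.g0, h0, Or.inl (by rw [gX_g0]; exact h)⟩)
    · exact Or.inr (Or.inr ⟨d.g0, h0, Or.inr (Or.inl (by rw [gY_g0]; exact h))⟩)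
    · exact Or.inr (Or.inr ⟨d.g0, h0, Or.inr (Or.inr (Or.inl h))⟩)
    · exact Or.inr (Or.inr ⟨d.g1, h1, Or.inl (by rw [gX_g1]; exact h)⟩)
    · exact Or.inr (Or.inr ⟨d.g1, h1, Or.inr (Or.inl (by rw [gY_g1]; exact h))⟩)
    · exact Or.inr (Or.inr ⟨d.g1, h1, Or.inr (Or.inr (Or.inl h))⟩)
    · exact Or.inr (Or.inr ⟨d.g2, h2, Or.inl (by rw [gX_g2]; exact h)⟩)
    · exact Or.inr (Or.inr ⟨d.g2, h2, Or.inr (Or.inl (by rw [gY_g2]; exact h))⟩)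
    · exact Or.inr (Or.inr ⟨d.g2, h2, Or.inr (Or.inr (Or.inl h))⟩)
    iterate 6
      exact Or.inr (Or.inr ⟨d.g0, h0, Or.inr (Or.inr (Or.inr ⟨_, by rw [gX_g0, gY_g0]; exact h⟩))⟩)
    iterate 6
      exact Or.inr (Or.inr ⟨d.g1, h1, Or.inr (Or.inr (Or.inr ⟨_, by rw [gX_g1, gY_g1]; exact h⟩))⟩)
    iterate 5
      exact Or.inr (Or.inr ⟨d.g2, h2, Or.inr (Or.inr (Or.inr ⟨_, by rw [gX_g2, gY_g2]; exact h⟩))⟩)

theorem gad_mem {I : NF} (hI : I.OK) {g : ℕ} (hg : g < 3 * I.ops.length) :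
    Fc.GX I.N (gX g) g ∈ I.data.fcodes ∧ Fc.GY I.N (gY g) g ∈ I.data.fcodes ∧
      Fc.T0 I.M I.N g ∈ I.data.fcodes := by
  have _ := hI
  obtain ⟨d, hd, hn⟩ := NF.opds_exists (I := I) (n := g / 3) (by omega)
  have hcase : g = d.g0 ∨ g = d.g1 ∨ g = d.g2 := by
    simp only [OpD.g0, OpD.g1, OpD.g2]; omega
  rcases hcase with h | h | h
  · rw [h, gX_g0, gY_g0]
    refine ⟨fac_mem hd ?_, fac_mem hd ?_, fac_mem hd ?_⟩ <;> simp [OpD.facets]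
  · rw [h, gX_g1, gY_g1]
    refine ⟨fac_mem hd ?_, fac_mem hd ?_, fac_mem hd ?_⟩ <;> simp [OpD.facets]
  · rw [h, gX_g2, gY_g2]
    refine ⟨fac_mem hd ?_, fac_mem hd ?_, fac_mem hd ?_⟩ <;> simp [OpD.facets]

/-- every pair of consecutive pages spans a facet or carries a gadget -/
theorem pair_cases {I : NF} (hI : I.OK) {a : ℕ} (ha : a + 1 ≤ I.M) :
    Fc.Q I.N a (a + 1) ∈ I.data.fcodes ∨ ∃ g < 3 * I.ops.length,
      (gX g = a ∧ gY g = a + 1) ∨ (gX g = a + 1 ∧ gY g = a) := by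
  have hM := (NF.size hI).2.1
  rcases Nat.eq_zero_or_pos a with h | h
  · subst h
    exact Or.inl (NF.mem_fcodes.2 (Or.inl rfl))
  obtain ⟨d, hd, hn⟩ := NF.opds_exists (I := I) (n := (a - 1) / 4) (by omega)
  have hlt := n_lt hI hd
  have hcase : a = d.pa ∨ a = d.pb ∨ a = d.pc ∨ a = d.pd := by
    simp only [OpD.pa, OpD.pb, OpD.pc, OpD.pd]; omega
  rcases hcase with h | h | h | h
  · refine Or.inr ⟨d.g0, by simp only [OpD.g0]; omega, Or.inr ⟨?_, ?_⟩⟩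
    · rw [gX_g0, h]; rfl
    · rw [gY_g0, h]
  · refine Or.inr ⟨d.g1, by simp only [OpD.g1]; omega, Or.inl ⟨?_, ?_⟩⟩
    · rw [gX_g1, h]
    · rw [gY_g1, h]; rfl
  · refine Or.inr ⟨d.g2, by simp only [OpD.g2]; omega, Or.inl ⟨?_, ?_⟩⟩
    · rw [gX_g2, h]
    · rw [gY_g2, h]; rfl
  · left
    have h3 : Fc.Q I.N a (a + 1) = Fc.Q I.N d.pd (d.nxt I.M) := by
      have h4 : d.nxt I.M = a + 1 := by
        simp only [OpD.nxt, OpD.pd] at h ⊢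
        rw [if_neg (by omega)]
        omega
      rw [h4, ← h]
    rw [h3]
    exact fac_mem hd (by simp [OpD.facets])

theorem QM_mem {I : NF} (hI : I.OK) : Fc.Q I.N I.M 0 ∈ I.data.fcodes := by
  obtain ⟨h1, h2, -⟩ := NF.size hI
  obtain ⟨d, hd, hn⟩ := NF.opds_exists (I := I) (n := I.ops.length - 1) (by omega)
  have h3 : Fc.Q I.N I.M 0 = Fc.Q I.N d.pd (d.nxt I.M) := by
    have h4 : d.pd = I.M := by simp only [OpD.pd]; omega
    have h5 : d.nxt I.M = 0 := by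
      simp only [OpD.nxt]
      rw [if_pos (by omega)]
    rw [h4, h5]
  rw [h3]
  exact fac_mem hd (by simp [OpD.facets])

end Pool.Agent.Helper10.G4
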